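import Mathlib

/-!
# Project EA: valuations and squares in `ℚ_p`, `p` odd

`VG x k`: the valuation of `x` is at least `k` (true for `x = 0`); `VE x k`: it is `k`.
-/

set_option autoImplicit false

namespace Pool.Agent.L7h24.EA

variable {p : ℕ} [hp : Fact p.Prime]

/-- the valuation is at least `k` -/
def VG (x : ℚ_[p]) (k : ℤ) : Prop := ‖x‖ ≤ (p : ℝ) ^ (-k)

/-- the valuation is `k` -/
def VE (x : ℚ_[p]) (k : ℤ) : Prop := ‖x‖ = (p : ℝ) ^ (-k)

lemma p_gt : (1 : ℝ) < p := by exact_mod_cast hp.out.one_lt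

lemma p_pos : (0 : ℝ) < p := by exact_mod_cast hp.out.pos

lemma VE.ge {x : ℚ_[p]} {k : ℤ} (h : VE x k) : VG x k := le_of_eq h

lemma VG.mono {x : ℚ_[p]} {k l : ℤ} (h : VG x k) (hl : l ≤ k) : VG x l :=
  le_trans h (zpow_le_zpow_right₀ (p_gt (p := p)).le (by omega))

lemma VG.mul {x y : ℚ_[p]} {k l : ℤ} (hx : VG x k) (hy : VG y l) : VG (x * y) (k + l) := by
  unfold VG at *
  rw [norm_mul, neg_add, zpow_add₀ (p_pos (p := p)).ne']
  exact mul_le_mul hx hy (norm_nonneg _) (zpow_nonneg (p_pos (p := p)).le _)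

lemma VE.mul {x y : ℚ_[p]} {k l : ℤ} (hx : VE x k) (hy : VE y l) : VE (x * y) (k + l) := by
  unfold VE at *
  rw [norm_mul, neg_add, zpow_add₀ (p_pos (p := p)).ne', hx, hy]

lemma VG.neg {x : ℚ_[p]} {k : ℤ} (hx : VG x k) : VG (-x) k := by
  unfold VG at *
  rwa [norm_neg]

lemma VE.neg {x : ℚ_[p]} {k : ℤ} (hx : VE x k) : VE (-x) k := by
  unfold VE at *
  rwa [norm_neg]

lemma VG.add {x y : ℚ_[p]} {k : ℤ} (hx : VG x k) (hy : VG y k) : VG (x + y) k :=
  (Padic.nonarchimedean x y).trans (max_le hx hy)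

lemma VG.sub {x y : ℚ_[p]} {k : ℤ} (hx : VG x k) (hy : VG y k) : VG (x - y) k := by
  rw [sub_eq_add_neg]
  exact hx.add hy.neg

lemma VG.zero (k : ℤ) : VG (0 : ℚ_[p]) k := by
  unfold VG
  rw [norm_zero]
  exact zpow_nonneg (p_pos (p := p)).le _

lemma VE.one : VE (1 : ℚ_[p]) 0 := by
  unfold VE
  simp

lemma VE.prime : VE (p : ℚ_[p]) 1 := by
  unfold VE
  rw [Padic.norm_p, zpow_neg_one]

lemma VE.pow {x : ℚ_[p]} {k : ℤ} (hx : VE x k) (n : ℕ) : VE (x ^ n) (n * k) := by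
  induction n with
  | zero => simpa using VE.one
  | succ n ih =>
    rw [pow_succ]
    have := ih.mul hx
    push_cast
    rwa [add_mul, one_mul]

lemma VG.pow {x : ℚ_[p]} {k : ℤ} (hx : VG x k) (n : ℕ) : VG (x ^ n) (n * k) := by
  induction n with
  | zero => simpa using VE.one.ge
  | succ n ih =>
    rw [pow_succ]
    have := ih.mul hx
    push_cast
    rwa [add_mul, one_mul]

lemma VE.inv {x : ℚ_[p]} {k : ℤ} (hx : VE x k) : VE x⁻¹ (-k) := by
  unfold VE at *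
  rw [norm_inv, hx, neg_neg, ← zpow_neg, neg_neg]

lemma VE.ne_zero {x : ℚ_[p]} {k : ℤ} (hx : VE x k) : x ≠ 0 := by
  rintro rfl
  unfold VE at hx
  rw [norm_zero] at hx
  exact (zpow_pos (p_pos (p := p)) _).ne hx

lemma VE.of_ne {x : ℚ_[p]} (hx : x ≠ 0) : VE x x.valuation := Padic.norm_eq_zpow_neg_valuation hx

lemma VE.inj {x : ℚ_[p]} {k l : ℤ} (h1 : VE x k) (h2 : VE x l) : k = l := by
  unfold VE at *
  have h3 := zpow_right_injective₀ (p_pos (p := p)) (p_gt (p := p)).ne' (h1.symm.trans h2)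
  omega

lemma VE.val {x : ℚ_[p]} {k : ℤ} (hx : VE x k) : x.valuation = k := (VE.of_ne hx.ne_zero).inj hx

lemma VG.le_of_VE {x : ℚ_[p]} {k l : ℤ} (h1 : VG x k) (h2 : VE x l) : k ≤ l := by
  unfold VG VE at *
  rw [h2] at h1
  have := (zpow_le_zpow_iff_right₀ (p_gt (p := p))).1 h1
  omega

lemma VE.lt {x y : ℚ_[p]} {k : ℤ} (hx : VE x k) (hy : VG y (k + 1)) : ‖y‖ < ‖x‖ := by
  unfold VG VE at *
  rw [hx]
  exact lt_of_le_of_lt hy (zpow_lt_zpow_right₀ (p_gt (p := p)) (by omega))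

/-- a small term does not change the valuation -/
lemma VE.add_small {x y : ℚ_[p]} {k : ℤ} (hx : VE x k) (hy : VG y (k + 1)) : VE (x + y) k := by
  have h1 := hx.lt hy
  unfold VE at *
  rw [Padic.add_eq_max_of_ne h1.ne', max_eq_left h1.le, hx]

lemma VG_int (n : ℤ) : VG (n : ℚ_[p]) 0 := by
  unfold VG
  rw [neg_zero, zpow_zero]
  exact Padic.norm_int_le_one n

lemma VG_dvd {n : ℤ} {k : ℕ} (h : (p : ℤ) ^ k ∣ n) : VG (n : ℚ_[p]) k := by
  unfold VG
  exact (Padic.norm_int_le_pow_iff_dvd n k).2 (by exact_mod_cast h)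

lemma VE_int {n : ℤ} {k : ℕ} (h : (p : ℤ) ^ k ∣ n) (h2 : ¬ (p : ℤ) ^ (k + 1) ∣ n) :
    VE (n : ℚ_[p]) k := by
  have hn : (n : ℚ_[p]) ≠ 0 := by
    intro h0
    apply h2
    have : n = 0 := by exact_mod_cast h0
    rw [this]
    exact dvd_zero _
  have h3 := VE.of_ne hn
  have h4 : (k : ℤ) ≤ (n : ℚ_[p]).valuation := (VG_dvd h).le_of_VE h3
  have h5 : ¬ ((k : ℤ) + 1 ≤ (n : ℚ_[p]).valuation) := by
    intro h6
    apply h2
    have h7 := h3.ge.mono h6
    unfold VG at h7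
    have := (Padic.norm_int_le_pow_iff_dvd n (k + 1)).1 (by exact_mod_cast h7)
    exact_mod_cast this
  have h8 : (n : ℚ_[p]).valuation = k := by omega
  rwa [h8] at h3

lemma VE_unit {n : ℤ} (h : ¬ (p : ℤ) ∣ n) : VE (n : ℚ_[p]) 0 := by
  have := VE_int (p := p) (n := n) (k := 0) (by simp) (by simpa using h)
  exact_mod_cast this

lemma VE_padicValInt {n : ℤ} (h : n ≠ 0) : VE (n : ℚ_[p]) (padicValInt p n) := by
  have h0 : (n : ℚ_[p]) ≠ 0 := by exact_mod_cast h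
  have := VE.of_ne h0
  rwa [Padic.valuation_intCast] at this

/-- units congruent to one are squares -/
lemma sq_one (h2 : p ≠ 2) {u : ℚ_[p]} (hu : VG (u - 1) 1) : IsSquare u := by
  have hu0 : ‖u - 1‖ < 1 := by
    refine lt_of_le_of_lt hu ?_
    rw [zpow_neg_one]
    exact inv_lt_one_of_one_lt₀ (p_gt (p := p))
  have hu1 : ‖u‖ ≤ 1 := by
    have : u = (u - 1) + 1 := by ring
    rw [this]
    exact (Padic.nonarchimedean _ _).trans (max_le hu0.le (by rw [norm_one]))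
  set z : ℤ_[p] := ⟨u, hu1⟩ with hz
  let F : Polynomial ℤ_[p] := Polynomial.X ^ 2 - Polynomial.C z
  have h1 : F.aeval (1 : ℤ_[p]) = 1 - z := by
    simp [F]
  have h3 : F.derivative.aeval (1 : ℤ_[p]) = 2 := by
    simp [F, one_add_one_eq_two]
  have h4 : ‖(2 : ℤ_[p])‖ = 1 := by
    have h5 : VE ((2 : ℤ) : ℚ_[p]) 0 := VE_unit (by
      intro h
      have h6 : p ∣ 2 := by exact_mod_cast h
      exact h2 ((Nat.prime_dvd_prime_iff_eq hp.out Nat.prime_two).1 h6))
    unfold VE at h5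
    rw [PadicInt.norm_def]
    rw [neg_zero, zpow_zero] at h5
    exact_mod_cast h5
  obtain ⟨w, hw, -⟩ := hensels_lemma (p := p) (R := ℤ_[p]) (F := F) (a := 1) (by
    rw [h1, h3, h4, one_pow, PadicInt.norm_def]
    push_cast
    rw [norm_sub_rev]
    exact hu0)
  refine ⟨w, ?_⟩
  have h5 : w ^ 2 = z := by
    have : F.aeval w = w ^ 2 - z := by simp [F]
    rw [this] at hw
    linear_combination hw
  have h6 := congrArg (fun x : ℤ_[p] => (x : ℚ_[p])) h5
  simp only [PadicInt.coe_pow] at h6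
  rw [← pow_two]
  exact h6.symm

lemma sq_mul_left {x y : ℚ_[p]} (hx : IsSquare x) (h0 : x ≠ 0) : IsSquare (x * y) ↔ IsSquare y := by
  constructor
  · intro h
    have := h.div hx
    rwa [mul_div_cancel_left₀ _ h0] at this
  · exact fun h => hx.mul h

/-- the product of two elements is a square: both are squares or none -/
lemma sq_iff_of_mul {x y : ℚ_[p]} (h : IsSquare (x * y)) (hx : x ≠ 0) (hy : y ≠ 0) :
    IsSquare x ↔ IsSquare y := by
  constructor
  · intro h1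
    exact (sq_mul_left h1 hx).1 h
  · intro h1
    rw [mul_comm] at h
    exact (sq_mul_left h1 hy).1 h

/-- a small term does not change the class modulo squares -/
lemma dom (h2 : p ≠ 2) {A B : ℚ_[p]} {k : ℤ} (hA : VE A k) (hB : VG B (k + 1)) :
    IsSquare (A + B) ↔ IsSquare A := by
  have hA0 := hA.ne_zero
  have h1 : A + B = (1 + B / A) * A := by field_simp
  have h3 : VG (1 + B / A - 1) 1 := by
    have h4 := hB.mul hA.inv.ge
    rw [← div_eq_mul_inv] at h4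
    rw [add_sub_cancel_left]
    exact h4.mono (by omega)
  have h5 := sq_one h2 h3
  have h6 : (1 + B / A) ≠ 0 := by
    intro h7
    have h8 : A + B = 0 := by rw [h1, h7, zero_mul]
    exact (hA.add_small hB).ne_zero h8
  rw [h1, sq_mul_left h5 h6]

lemma even_of_sq {x : ℚ_[p]} {k : ℤ} (hx : VE x k) (h : IsSquare x) : Even k := by
  obtain ⟨c, rfl⟩ := h
  have hc : c ≠ 0 := left_ne_zero_of_mul hx.ne_zero
  have h1 := (VE.of_ne hc).mul (VE.of_ne hc)
  rw [hx.inj h1]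
  exact ⟨_, rfl⟩

/-- residues and squares -/
lemma isSquare_int (h2 : p ≠ 2) {n : ℤ} (hn : ¬ (p : ℤ) ∣ n) :
    IsSquare (n : ℚ_[p]) ↔ jacobiSym n p = 1 := by
  have hn0 : (n : ZMod p) ≠ 0 := fun h => hn ((ZMod.intCast_zmod_eq_zero_iff_dvd _ _).1 h)
  rw [← jacobiSym.legendreSym.to_jacobiSym, legendreSym.eq_one_iff p hn0]
  constructor
  · rintro ⟨c, hc⟩
    have h1 : VE (n : ℚ_[p]) 0 := VE_unit hn
    have hc1 : ‖c‖ ≤ 1 := by
      have h3 : ‖c‖ * ‖c‖ = 1 := by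
        rw [← norm_mul, ← hc]
        simpa [VE] using h1
      nlinarith [norm_nonneg c]
    set z : ℤ_[p] := ⟨c, hc1⟩ with hz
    have h3 : ((n : ℤ) : ℤ_[p]) = z * z := by
      apply Subtype.ext
      push_cast
      exact hc
    refine ⟨PadicInt.toZMod z, ?_⟩
    rw [← map_mul, ← h3, map_intCast]
  · rintro ⟨c, hc⟩
    obtain ⟨m, rfl⟩ := ZMod.intCast_surjective c
    have hm : ¬ (p : ℤ) ∣ m := by
      intro h
      apply hn0
      rw [hc, (ZMod.intCast_zmod_eq_zero_iff_dvd _ _).2 h, zero_mul]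
    have h3 : (p : ℤ) ∣ n - m * m := by
      rw [← ZMod.intCast_zmod_eq_zero_iff_dvd]
      push_cast
      rw [hc, sub_self]
    have h4 : VE ((m * m : ℤ) : ℚ_[p]) 0 := by
      push_cast
      simpa using (VE_unit hm).mul (VE_unit hm)
    have h5 : VG ((n - m * m : ℤ) : ℚ_[p]) (0 + 1) := by
      have := VG_dvd (p := p) (n := n - m * m) (k := 1) (by simpa using h3)
      simpa using this
    have h6 := dom h2 h4 h5
    rw [← Int.cast_add, add_sub_cancel] at h6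
    rw [h6]
    push_cast
    exact ⟨_, rfl⟩

end Pool.Agent.L7h24.EA
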