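import Pool.Agent.L7h19.EA.Stm
import Pool.Agent.L7h24.EA.Bas

/-!
# Project EA, parts TOR, SCL, N3, N7, N8

`pt_cub`, `pt_quad`, `pt_lin`: the consequences if one of the terms `x³`, `a x²`, `b x` dominates.
-/

set_option autoImplicit false

namespace Pool.Agent.L7h24.EA

open Pool.Agent.L7h19.EA

section dominate

variable {p : ℕ} [hp : Fact p.Prime]

/-- `x³` dominates -/
lemma pt_cub (h2 : p ≠ 2) {a b : ℤ} {x : ℚ_[p]} {v α β : ℤ} (h : Pt p a b x) (hv : VE x v)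
    (ha : VG (a : ℚ_[p]) α) (hb : VG (b : ℚ_[p]) β) (c1 : v + 1 ≤ α) (c2 : 2 * v + 1 ≤ β) :
    IsSquare x := by
  obtain ⟨hx, y, hy⟩ := h
  have h3 : IsSquare (x ^ 3 + ((a : ℚ_[p]) * x ^ 2 + b * x)) := ⟨y, by rw [← pow_two, hy]; ring⟩
  have h4 : VG ((a : ℚ_[p]) * x ^ 2) (3 * v + 1) := (ha.mul (hv.pow 2).ge).mono (by push_cast; omega)
  have h5 : VG ((b : ℚ_[p]) * x) (3 * v + 1) := (hb.mul hv.ge).mono (by omega)
  have h6 : VE (x ^ 3) (3 * v) := by simpa using hv.pow 3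
  have h7 := (dom h2 h6 (h4.add h5)).1 h3
  have h8 : x ^ 3 = (x * x) * x := by ring
  rw [h8, sq_mul_left ⟨x, rfl⟩ (mul_ne_zero hx hx)] at h7
  exact h7

/-- `b x` dominates -/
lemma pt_lin (h2 : p ≠ 2) {a b : ℤ} {x : ℚ_[p]} {v α β : ℤ} (h : Pt p a b x) (hv : VE x v)
    (ha : VG (a : ℚ_[p]) α) (hb : VE (b : ℚ_[p]) β) (c1 : β + 1 ≤ 2 * v) (c2 : β + 1 ≤ α + v) :
    IsSquare ((b : ℚ_[p]) * x) := by
  obtain ⟨hx, y, hy⟩ := h
  have h3 : IsSquare ((b : ℚ_[p]) * x + (x ^ 3 + (a : ℚ_[p]) * x ^ 2)) :=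
    ⟨y, by rw [← pow_two, hy]; ring⟩
  have h4 : VG ((a : ℚ_[p]) * x ^ 2) (β + v + 1) :=
    (ha.mul (hv.pow 2).ge).mono (by push_cast; omega)
  have h6 : VG (x ^ 3) (β + v + 1) := (hv.pow 3).ge.mono (by push_cast; omega)
  exact (dom h2 (hb.mul hv) (h6.add h4)).1 h3

/-- `a x²` dominates -/
lemma pt_quad (h2 : p ≠ 2) {a b : ℤ} {x : ℚ_[p]} {v α β : ℤ} (h : Pt p a b x) (hv : VE x v)
    (ha : VE (a : ℚ_[p]) α) (hb : VG (b : ℚ_[p]) β) (c1 : α + 1 ≤ v) (c2 : α + v + 1 ≤ β) :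
    IsSquare (a : ℚ_[p]) := by
  obtain ⟨hx, y, hy⟩ := h
  have h3 : IsSquare ((a : ℚ_[p]) * x ^ 2 + (x ^ 3 + b * x)) := ⟨y, by rw [← pow_two, hy]; ring⟩
  have h4 : VE ((a : ℚ_[p]) * x ^ 2) (α + 2 * v) := by simpa using ha.mul (hv.pow 2)
  have h5 : VG ((b : ℚ_[p]) * x) (α + 2 * v + 1) := (hb.mul hv.ge).mono (by omega)
  have h6 : VG (x ^ 3) (α + 2 * v + 1) := (hv.pow 3).ge.mono (by push_cast; omega)
  have h7 := (dom h2 h4 (h6.add h5)).1 h3
  rw [mul_comm, pow_two, sq_mul_left ⟨x, rfl⟩ (mul_ne_zero hx hx)] at h7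
  exact h7

end dominate

theorem s_TOR : S_TOR := by
  intro p _ a b h2 hb
  have hb0 : (b : ℚ_[p]) ≠ 0 := by exact_mod_cast hb
  have hp0 : (p : ℚ_[p]) ≠ 0 := VE.prime.ne_zero
  refine ⟨1, mul_ne_zero hb0 (pow_ne_zero _ hp0), ?_⟩
  have h1 : IsSquare (1 + ((a : ℚ_[p]) * (p : ℚ_[p]) ^ 2 + b * (p : ℚ_[p]) ^ 4)) := by
    refine sq_one h2 ?_
    rw [add_sub_cancel_left]
    have e1 := (VG_int (p := p) a).mul ((VE.prime (p := p)).pow 2).ge
    have e2 := (VG_int (p := p) b).mul ((VE.prime (p := p)).pow 4).ge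
    exact (e1.mono (by norm_num)).add (e2.mono (by norm_num))
  obtain ⟨c, hc⟩ := h1
  refine ⟨b * p * c, ?_⟩
  have h3 : ((b : ℚ_[p]) * p * c) ^ 2 = (b : ℚ_[p]) ^ 2 * (p : ℚ_[p]) ^ 2 * (c * c) := by ring
  rw [h3, ← hc]
  ring

theorem s_SCL : S_SCL := by
  intro p _ a b g c r s hg h
  have hg0 : (g : ℚ_[p]) ≠ 0 := by exact_mod_cast hg
  have hgg : ((g : ℚ_[p]) ^ 2) ≠ 0 := pow_ne_zero 2 hg0
  -- the points correspond
  have key : ∀ x : ℚ_[p], Pt p (g ^ 2 * a) (g ^ 4 * b) x ↔ Pt p a b (x / g ^ 2) := by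
    intro x
    constructor
    · rintro ⟨hx, y, hy⟩
      refine ⟨div_ne_zero hx hgg, y / g ^ 3, ?_⟩
      rw [div_pow, hy]
      push_cast
      field_simp
    · rintro ⟨hx, y, hy⟩
      have hx0 : x ≠ 0 := by
        rintro rfl
        exact hx (zero_div _)
      refine ⟨hx0, y * g ^ 3, ?_⟩
      rw [mul_pow, hy]
      push_cast
      field_simp
  have hval : ∀ x : ℚ_[p], x ≠ 0 → (x / (g : ℚ_[p]) ^ 2).valuation =
      x.valuation - 2 * (g : ℚ_[p]).valuation := by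
    intro x hx
    have h1 := (VE.of_ne hx).mul ((VE.of_ne hg0).pow 2).inv
    rw [← div_eq_mul_inv] at h1
    rw [h1.val]
    push_cast
    ring
  have hsq : ∀ x : ℚ_[p], IsSquare (x / (g : ℚ_[p]) ^ 2) ↔ IsSquare x := by
    intro x
    rw [div_eq_mul_inv, mul_comm, sq_mul_left ⟨(g : ℚ_[p])⁻¹, by rw [pow_two, mul_inv]⟩
      (inv_ne_zero hgg)]
  obtain ⟨h1, h3, h4⟩ := h
  refine ⟨?_, ?_, ?_⟩
  · rw [← h1]
    constructor
    · rintro ⟨_, x, hx, ho⟩
      refine ⟨inferInstance, x / (g : ℚ_[p]) ^ 2, (key x).1 hx, ?_⟩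
      rw [hval x hx.1]
      rw [Int.odd_iff] at ho ⊢
      omega
    · rintro ⟨_, x, hx, ho⟩
      have e : x * (g : ℚ_[p]) ^ 2 / (g : ℚ_[p]) ^ 2 = x := mul_div_cancel_right₀ _ hgg
      have hx2 : Pt p (g ^ 2 * a) (g ^ 4 * b) (x * (g : ℚ_[p]) ^ 2) := (key _).2 (by rw [e]; exact hx)
      refine ⟨inferInstance, x * (g : ℚ_[p]) ^ 2, hx2, ?_⟩
      have := hval _ hx2.1
      rw [e] at this
      rw [Int.odd_iff] at ho ⊢
      omega
  · intro x hx he hr
    rw [← hsq]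
    refine h3 _ ((key x).1 hx) ?_ hr
    rw [hval x hx.1]
    rw [Int.even_iff] at he ⊢
    omega
  · intro x hx ho hr hc
    rw [← h4 _ ((key x).1 hx) (by rw [hval x hx.1]; rw [Int.odd_iff] at ho ⊢; omega) hr hc, ← hsq,
      div_mul_eq_mul_div]

theorem s_N3 : S_N3 := by
  intro p _ a b s h2 hb _
  refine ⟨⟨?_, fun h => absurd h (by simp)⟩, fun _ _ _ h => absurd h (by simp),
    fun _ _ _ h => absurd h (by simp)⟩
  rintro ⟨_, x, hx, ho⟩
  exfalso
  have hv := VE.of_ne hx.1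
  have hb' := VE_unit (p := p) hb
  rcases lt_trichotomy x.valuation 0 with h | h | h
  · have := even_of_sq hv (pt_cub h2 hx hv (VG_int a) (VG_int b) (by omega) (by omega))
    rw [Int.even_iff] at this
    rw [Int.odd_iff] at ho
    omega
  · rw [Int.odd_iff] at ho
    omega
  · have := even_of_sq (hb'.mul hv) (pt_lin h2 hx hv (VG_int a) hb' (by omega) (by omega))
    rw [Int.even_iff] at this
    rw [Int.odd_iff] at ho
    omega

/-- the last step of `N7`, `N8`: the sign -/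
lemma sign_of {p : ℕ} [hp : Fact p.Prime] (h2 : p ≠ 2) {b : ℤ} {k : ℕ} {x : ℚ_[p]}
    (hk : Odd k) (hb : (p : ℤ) ^ k ∣ b) (hb2 : ¬ (p : ℤ) ^ (k + 1) ∣ b) (hx : x ≠ 0)
    (h : IsSquare ((b : ℚ_[p]) * x)) :
    IsSquare (x * p) ↔ (!sq p (b / (p : ℤ) ^ k)) = false := by
  obtain ⟨u, rfl⟩ := hb
  have hpk : ((p : ℤ) ^ k) ≠ 0 := pow_ne_zero _ (by exact_mod_cast hp.out.ne_zero)
  rw [Int.mul_ediv_cancel_left _ hpk]
  have hu : ¬ (p : ℤ) ∣ u := by
    intro h3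
    apply hb2
    rw [pow_succ]
    exact mul_dvd_mul_left _ h3
  have hu0 := (VE_unit (p := p) hu).ne_zero
  have hp0 : (p : ℚ_[p]) ≠ 0 := VE.prime.ne_zero
  have h4 : IsSquare ((u : ℚ_[p]) * (x * p)) := by
    obtain ⟨m, rfl⟩ := hk
    have h5 : ((((p : ℤ) ^ (2 * m + 1) * u : ℤ)) : ℚ_[p]) * x =
        ((p : ℚ_[p]) ^ m * (p : ℚ_[p]) ^ m) * ((u : ℚ_[p]) * (x * p)) := by
      push_cast
      ring
    rw [h5, sq_mul_left ⟨_, rfl⟩ (mul_ne_zero (pow_ne_zero _ hp0) (pow_ne_zero _ hp0))] at h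
    exact h
  rw [← sq_iff_of_mul h4 hu0 (mul_ne_zero hx hp0), isSquare_int h2 hu]
  unfold Pool.Agent.L7h19.EA.sq
  simp

theorem s_N7 : S_N7 := by
  intro p _ a b h2 ha hb hb2
  have ha' : VG (a : ℚ_[p]) 1 := by
    have := VG_dvd (p := p) (n := a) (k := 1) (by simpa using ha)
    exact_mod_cast this
  have hb' : VE (b : ℚ_[p]) 1 := by
    have := VE_int (p := p) (n := b) (k := 1) (by simpa using hb) (by simpa using hb2)
    exact_mod_cast this
  have hb0 : b ≠ 0 := by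
    rintro rfl
    exact hb2 (dvd_zero _)
  refine ⟨⟨fun _ => rfl, fun _ => ?_⟩, ?_, ?_⟩
  · obtain ⟨k, hk⟩ := s_TOR p a b h2 hb0
    refine ⟨inferInstance, _, hk, ?_⟩
    have h3 := hb'.mul ((VE.prime (p := p)).pow (2 * k))
    rw [h3.val, Int.odd_iff]
    push_cast
    omega
  · intro x hx he _
    have hv := VE.of_ne hx.1
    rw [Int.even_iff] at he
    rcases le_or_gt x.valuation 0 with h | h
    · exact pt_cub h2 hx hv ha' hb'.ge (by omega) (by omega)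
    · have := even_of_sq (hb'.mul hv) (pt_lin h2 hx hv ha' hb' (by omega) (by omega))
      rw [Int.even_iff] at this
      omega
  · intro x hx ho _ _
    have hv := VE.of_ne hx.1
    rw [Int.odd_iff] at ho
    have h : 0 < x.valuation := by
      by_contra h
      have := even_of_sq hv (pt_cub h2 hx hv ha' hb'.ge (by omega) (by omega))
      rw [Int.even_iff] at this
      omega
    have h3 := pt_lin h2 hx hv ha' hb' (by omega) (by omega)
    have := sign_of h2 (b := b) (k := 1) (by decide) (by simpa using hb) (by simpa using hb2) hx.1 h3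
    rw [pow_one] at this
    exact this

theorem s_N8 : S_N8 := by
  intro p _ a b h2 ha hb hb2
  have ha' : VG (a : ℚ_[p]) 2 := by
    have := VG_dvd (p := p) (n := a) (k := 2) ha
    exact_mod_cast this
  have hb' : VE (b : ℚ_[p]) 3 := by
    have := VE_int (p := p) (n := b) (k := 3) hb hb2
    exact_mod_cast this
  have hb0 : b ≠ 0 := by
    rintro rfl
    exact hb2 (dvd_zero _)
  refine ⟨⟨fun _ => rfl, fun _ => ?_⟩, ?_, ?_⟩
  · obtain ⟨k, hk⟩ := s_TOR p a b h2 hb0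
    refine ⟨inferInstance, _, hk, ?_⟩
    have h3 := hb'.mul ((VE.prime (p := p)).pow (2 * k))
    rw [h3.val, Int.odd_iff]
    push_cast
    omega
  · intro x hx he _
    have hv := VE.of_ne hx.1
    rw [Int.even_iff] at he
    rcases le_or_gt x.valuation 1 with h | h
    · exact pt_cub h2 hx hv ha' hb'.ge (by omega) (by omega)
    · have := even_of_sq (hb'.mul hv) (pt_lin h2 hx hv ha' hb' (by omega) (by omega))
      rw [Int.even_iff] at this
      omega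
  · intro x hx ho _ _
    have hv := VE.of_ne hx.1
    rw [Int.odd_iff] at ho
    have h : 1 < x.valuation := by
      by_contra h
      have := even_of_sq hv (pt_cub h2 hx hv ha' hb'.ge (by omega) (by omega))
      rw [Int.even_iff] at this
      omega
    have h3 := pt_lin h2 hx hv ha' hb' (by omega) (by omega)
    exact sign_of h2 (b := b) (k := 3) (by decide) hb hb2 hx.1 h3

end Pool.Agent.L7h24.EA
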